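import Pool.Agent.helper32.EXC.Spec11

/-!
# Row en11:TE8 of MP_561ff4_al: the root elements `x_(c8 i)(1)` as words
-/

set_option autoImplicit false

open Finset

namespace Pool.Agent.EXC

theorem T11TE8_sb : ∀ i : Fin 5, sb8 i = 1 ∨ sb8 i = -1 := by decide

theorem T11TE8_one (F : Type) [Field F] [IsC CartanMatrix.E₈] (k : Fin 15) (t : ℤ) :
    gw8 F [(k, t)] = XG CartanMatrix.E₈ (lt8 k) (t : F) := by
  unfold gw8
  rw [List.map_singleton, List.prod_singleton]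

theorem T11TE8 (hT11WA8 : T11WA8_stmt) (hT11XGS : T11XGS_stmt) (hEXF : EXF_stmt) (hXAU : XAU_stmt) : T11TE8_stmt := by
  intro _ F _ hβ i
  obtain ⟨-, hE2, hE3, -⟩ := hEXF 8 CartanMatrix.E₈ F hβ
  have ha : Ex CartanMatrix.E₈ (E CartanMatrix.E₈ (lt8 (bs8 i)) : Lm CartanMatrix.E₈ F) := hE2 _ (lt8_root _)
  have hg : gw8 F (wd8 i) ∈ GE CartanMatrix.E₈ F := (hT11WA8 F hβ (wd8 i) []).1
  have hinv : gw8 F (wi8 (wd8 i)) = (gw8 F (wd8 i))⁻¹ := (hT11WA8 F hβ (wd8 i) []).2.1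
  have hmul : ∀ l l' : List (Fin 15 × ℤ), gw8 F (l ++ l') = gw8 F l * gw8 F l' := fun l l' => (hT11WA8 F hβ l l').2.2.1
  obtain ⟨-, -, hg1, -, -, -, -, hcj, -⟩ := hE3 _ ha
  have hga := hg1 _ hg
  obtain ⟨hX, -, -, hs1, -⟩ := hE3 _ hga
  have hs : (sb8 i : F) ≠ 0 := by
    rcases T11TE8_sb i with h | h <;> rw [h] <;> simp
  have hx := (hT11XGS 8 CartanMatrix.E₈ F hβ (lt8 (bs8 i)) (lt8_root _) (sb8 i : F)).1
  have htw : gw8 F (tw8 i) = gw8 F (wd8 i) * XG CartanMatrix.E₈ (lt8 (bs8 i)) (sb8 i : F) * (gw8 F (wd8 i))⁻¹ := by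
    unfold tw8
    rw [hmul, hmul, hinv, T11TE8_one]
  have hIs : IsX CartanMatrix.E₈ (c8 F i) 1 (gw8 F (tw8 i)) := by
    intro v
    rw [htw]
    have h1 := hcj _ hg _ _ hx v
    rw [h1]
    have h2 := ((hXAU 8 CartanMatrix.E₈ F _ hX).2.2.2 (sb8 i : F)).2 1 v
    rw [mul_one] at h2
    unfold c8
    exact h2.symm
  refine ⟨hs1 _ hs, hIs, fun g hg' => ?_⟩
  apply LinearEquiv.ext
  intro v
  rw [hg' v, hIs v]

end Pool.Agent.EXC
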